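import Pool.Agent.H6.FB.Stmts

/-!
Numbers.
-/

set_option autoImplicit false

namespace Pool.Agent.H6.FB

theorem tta_thm : TTAStmt := by
  have h0 : 0 < e0 := Real.exp_pos _
  have h1 : e0 < 1 / 1000000 := by
    have h2 : (2:ℝ) ≤ Real.exp 1 := by
      have := Real.add_one_le_exp (1:ℝ)
      linarith
    have h3 : Real.exp 64 = Real.exp 1 ^ 64 := by
      rw [← Real.exp_nat_mul]
      norm_num
    have h4 : (2:ℝ) ^ 64 ≤ Real.exp 64 := by
      rw [h3]
      exact pow_le_pow_left₀ (by norm_num) h2 64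
    have h5 : e0 = (Real.exp 64)⁻¹ := by
      rw [e0, Real.exp_neg]
    rw [h5]
    have h6 : (0:ℝ) < Real.exp 64 := Real.exp_pos _
    rw [inv_eq_one_div, div_lt_div_iff₀ h6 (by norm_num)]
    have h7 : (1000000:ℝ) < 2 ^ 64 := by norm_num
    linarith
  have hc : cc = 2 - 3 / 2 * e0 := rfl
  have hc1 : 1 < cc := by rw [hc]; linarith
  have hc2 : cc < 2 := by rw [hc]; linarith
  have hc0 : 0 < cc := by linarith
  have hR2 : RR ^ 2 = (2 - e0) / cc := by
    rw [RR, hc]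
    apply Real.sq_sqrt
    apply div_nonneg <;> linarith
  have hR0 : 0 ≤ RR := Real.sqrt_nonneg _
  have hR3 : 1 < RR ^ 2 := by
    rw [hR2, lt_div_iff₀ hc0, hc]
    linarith
  have hR4 : RR ^ 2 < (11 / 10) ^ 2 := by
    rw [hR2, div_lt_iff₀ hc0, hc]
    nlinarith
  refine ⟨h0, h1, ?_, ?_, ?_, hc1, hc2, ?_, ?_, ?_⟩
  · nlinarith
  · exact lt_of_pow_lt_pow_left₀ 2 (by norm_num) hR4
  · rw [hR2]
    field_simp
  · rw [s0, lt_div_iff₀ hc0, hc]
    linarith
  · rw [s0, div_lt_iff₀ hc0, hc]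
    linarith
  · linarith

end Pool.Agent.H6.FB
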