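import Pool.Agent.H6.FB.Stmts

/-!
The function `tt`.
-/

set_option autoImplicit false

open Metric Set Filter Topology

namespace Pool.Agent.H6.FB

theorem ttb_thm (h : TTAStmt) : TTBStmt := by
  obtain ⟨h0, h1, _, _, h4, h5, h6, _, _, _⟩ := h
  have hc0 : (0:ℝ) < cc := by linarith
  have hcne : (cc : ℂ) ≠ 0 := by exact_mod_cast hc0.ne'
  have hnorm : ∀ s ∈ DD, ‖(cc : ℂ) * s‖ < 1 - e0 / 2 := by
    intro s hs
    rw [DD, mem_ball_zero_iff] at hs
    rw [norm_mul, Complex.norm_real, Real.norm_of_nonneg hc0.le, ← h4]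
    exact mul_lt_mul_of_pos_left hs hc0
  have hre : ∀ s ∈ DD, e0 / 2 < (1 - (cc : ℂ) * s).re := by
    intro s hs
    have h2 := hnorm s hs
    have h3 := Complex.re_le_norm ((cc : ℂ) * s)
    rw [Complex.sub_re, Complex.one_re]
    linarith
  have hre0 : ∀ s ∈ DD, 0 < (1 - (cc : ℂ) * s).re := fun s hs => by
    have := hre s hs
    linarith
  have hne : ∀ s ∈ DD, (1 - (cc : ℂ) * s) ≠ 0 := by
    intro s hs h'
    have := hre0 s hs
    rw [h'] at this
    simp at this
  have hexp : ∀ s ∈ DD, Complex.exp (-64 * tt s) = 1 - (cc : ℂ) * s := by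
    intro s hs
    rw [tt, show -64 * (-(1 / 64) * Complex.log (1 - (cc : ℂ) * s)) =
      Complex.log (1 - (cc : ℂ) * s) by ring]
    exact Complex.exp_log (hne s hs)
  refine ⟨?_, ?_, ?_, ?_, ?_, ?_, ?_⟩
  · intro s hs
    apply DifferentiableAt.differentiableWithinAt
    unfold tt
    apply DifferentiableAt.const_mul
    apply DifferentiableAt.clog
    · fun_prop
    · rw [Complex.mem_slitPlane_iff]
      left
      exact hre0 s hs
  · simp [tt]
  · have h2 : (1 - (cc : ℂ) * (s0 : ℂ)) = ((Real.exp (-64) : ℝ) : ℂ) := by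
      rw [← Complex.ofReal_mul, ← Complex.ofReal_one, ← Complex.ofReal_sub]
      congr 1
      rw [s0, mul_div_cancel₀ _ hc0.ne']
      rw [e0]
      ring
    rw [tt, h2, ← Complex.ofReal_log (Real.exp_pos _).le, Real.log_exp]
    push_cast
    ring
  · intro s hs
    exact ⟨hre0 s hs, hexp s hs⟩
  · intro s hs
    have hn1 : e0 / 2 < ‖1 - (cc : ℂ) * s‖ :=
      lt_of_lt_of_le (hre s hs) (Complex.re_le_norm _)
    have hn2 : ‖1 - (cc : ℂ) * s‖ < 2 := by
      have h2 := hnorm s hs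
      have h3 := norm_sub_le (1:ℂ) ((cc : ℂ) * s)
      rw [norm_one] at h3
      linarith
    have hpos : 0 < ‖1 - (cc : ℂ) * s‖ := by linarith
    have hl2 : Real.log 2 < 1 := by
      have := Real.log_two_lt_d9
      linarith
    have hlog1 : Real.log ‖1 - (cc : ℂ) * s‖ < 1 :=
      lt_trans (Real.log_lt_log hpos hn2) hl2
    have hlog2 : -65 < Real.log ‖1 - (cc : ℂ) * s‖ := by
      have h2 : Real.log (e0 / 2) < Real.log ‖1 - (cc : ℂ) * s‖ :=
        Real.log_lt_log (by linarith) hn1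
      have h3 : Real.log (e0 / 2) = -64 - Real.log 2 := by
        rw [Real.log_div h0.ne' (by norm_num), e0, Real.log_exp]
      linarith
    have htre : (tt s).re = -(1 / 64) * Real.log ‖1 - (cc : ℂ) * s‖ := by
      rw [tt, show (-(1 / 64) : ℂ) = ((-(1 / 64) : ℝ) : ℂ) by push_cast; ring,
        Complex.re_ofReal_mul, Complex.log_re]
    have htim : (tt s).im = -(1 / 64) * (1 - (cc : ℂ) * s).arg := by
      rw [tt, show (-(1 / 64) : ℂ) = ((-(1 / 64) : ℝ) : ℂ) by push_cast; ring,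
        Complex.im_ofReal_mul, Complex.log_im]
    have harg : |(1 - (cc : ℂ) * s).arg| < Real.pi / 2 :=
      Complex.abs_arg_lt_pi_div_two_iff.2 (Or.inl (hre0 s hs))
    refine ⟨?_, ?_, ?_⟩
    · rw [htre]; linarith
    · rw [htre]; linarith
    · rw [htim, abs_mul, abs_neg, abs_of_pos (by norm_num : (0:ℝ) < 1 / 64)]
      have := Real.pi_lt_d2
      linarith
  · intro s hs s' hs' heq
    have h2 := hexp s hs
    rw [heq, hexp s' hs'] at h2
    have h3 : (cc : ℂ) * s' = (cc : ℂ) * s := by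
      have := congrArg (fun z => 1 - z) h2
      simpa using this
    exact (mul_left_cancel₀ hcne h3).symm
  · intro s hs
    have h2 : ‖Complex.log (1 + -((cc : ℂ) * s))‖ ≤ 3 / 2 * ‖-((cc : ℂ) * s)‖ :=
      Complex.norm_log_one_add_half_le_self (by rwa [norm_neg])
    rw [norm_neg, norm_mul, Complex.norm_real, Real.norm_of_nonneg hc0.le,
      ← sub_eq_add_neg] at h2
    have h3 : ‖tt s‖ = 1 / 64 * ‖Complex.log (1 - (cc : ℂ) * s)‖ := by
      rw [tt, norm_mul]
      congr 1
      norm_num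
    rw [h3]
    nlinarith [norm_nonneg s]

end Pool.Agent.H6.FB
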